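import Pool.Agent.K3h10.MS.RepA

/-!
# Zeros in character table rows and the Fitting subgroup: all finite groups

The library `Pool.Agent.K3h10.MS` treats solvable groups (frozen statement `S01023` of the sibling problem
`MP_29fe3f_al`).  Here: for ALL finite groups the index of the Fitting subgroup is bounded in terms of the largest
number `m` of zeros in a row of the character table and of the index of a solvable normal subgroup.
-/

set_option autoImplicit false

namespace Pool.Agent.U247.ZF

open Pool.Agent.Helper218.NV Pool.Agent.K3h10.MS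
open scoped commutatorElement

/-- An irreducible character which vanishes at all elements which are, modulo the Fitting subgroup, nontrivial
elements of a given abelian normal `p`-subgroup. -/
theorem rep_char {G : Type} [Group G] [Finite G] (F : Subgroup G) [hFnor : F.Normal]
    (hFn : Group.IsNilpotent F) (hFmax : ∀ N : Subgroup G, N.Normal → Group.IsNilpotent N → N ≤ F)
    (p : ℕ) [hp : Fact p.Prime] (P : Subgroup (G ⧸ F)) (hP : P.Normal) (hPp : IsPGroup p P)
    (hab : ∀ x ∈ P, ∀ y ∈ P, x * y = y * x) :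
    ∃ (V : Type) (_ : AddCommGroup V) (_ : Module ℂ V) (_ : FiniteDimensional ℂ V)
      (ρ : Representation ℂ G V), ρ.IsIrreducible ∧
      ∀ g : G, QuotientGroup.mk' F g ∈ P → QuotientGroup.mk' F g ≠ 1 → ρ.character g = 0 := by
  classical
  have hfin : Finite (F →* ℂˣ) := hom_finite
  set n := ordCompl[p] (Nat.card F) with hn
  have hncop : n.Coprime p := (Nat.coprime_ordCompl hp.out Nat.card_pos.ne').symm
  let W : Subgroup (F →* ℂˣ) :=
    { carrier := {l | ∀ x, l x ^ n = 1}
      one_mem' := fun x => one_pow n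
      mul_mem' := by
        intro a b ha hb x
        rw [MonoidHom.mul_apply, mul_pow, ha x, hb x, one_mul]
      inv_mem' := by
        intro a ha x
        rw [MonoidHom.inv_apply, inv_pow, ha x, inv_one] }
  have hWm : ∀ l : F →* ℂˣ, l ∈ W ↔ ∀ x, l x ^ n = 1 := fun _ => Iff.rfl
  have hW : ∀ (g : G), ∀ l ∈ W, l.comp (MulAut.conjNormal g : MulAut F).toMonoidHom ∈ W := by
    intro g l hl
    rw [hWm] at hl ⊢
    exact fun x => hl (MulAut.conjNormal g x)
  let φ := actW W hW
  let J : Subgroup (MulAut W) := (P.comap (QuotientGroup.mk' F)).map φ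
  have hFker : ∀ f ∈ F, φ f = 1 := by
    intro f hf
    ext1 l
    change actW W hW f l = l
    rw [actW_fix]
    intro x
    have h1 : (MulAut.conjNormal f : MulAut F) x = ⟨f, hf⟩ * x * ⟨f, hf⟩⁻¹ := by
      apply Subtype.ext
      rw [MulAut.conjNormal_apply]
      rfl
    rw [h1, map_mul, map_mul, map_inv, mul_comm, inv_mul_cancel_left]
  have hJab : ∀ a ∈ J, ∀ b ∈ J, a * b = b * a := by
    rintro _ ⟨a, ha, rfl⟩ _ ⟨b, hb, rfl⟩
    have h1 := hab _ ha _ hb
    rw [← map_mul, ← map_mul] at h1
    have h2 : (a * b)⁻¹ * (b * a) ∈ F := QuotientGroup.eq.1 h1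
    have h3 := hFker _ h2
    rw [map_mul, map_inv, inv_mul_eq_one] at h3
    rw [← map_mul, ← map_mul, h3]
  have hJp : IsPGroup p J := by
    rintro ⟨_, a, ha, rfl⟩
    obtain ⟨k, hk⟩ := hPp ⟨_, ha⟩
    refine ⟨k, ?_⟩
    apply Subtype.ext
    rw [Subgroup.coe_pow, Subgroup.coe_one, ← map_pow]
    apply hFker
    have h1 := congrArg Subtype.val hk
    rw [Subgroup.coe_pow, Subgroup.coe_one, ← map_pow] at h1
    exact (QuotientGroup.eq_one_iff _).1 h1
  have hFinA : Finite (MulAut W) := Finite.of_injective (fun f : MulAut W => (f : W → W))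
    (fun a b h => MulEquiv.ext (fun x => congrFun h x))
  have hcop : (Nat.card J).Coprime (Nat.card W) := by
    obtain ⟨k, hk⟩ := IsPGroup.iff_card.1 hJp
    rw [hk]
    apply Nat.Coprime.pow_left
    refine coprime_of_pow n p hncop (fun x => ?_)
    apply Subtype.ext
    rw [Subgroup.coe_pow, Subgroup.coe_one]
    refine MonoidHom.ext fun y => ?_
    rw [MonoidHom.pow_apply, MonoidHom.one_apply]
    exact x.2 y
  obtain ⟨l, hl⟩ := generic J hJab hcop
  -- elements of the preimage of `P` which fix `l` are in `F`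
  have key : ∀ g : G, QuotientGroup.mk' F g ∈ P → φ g l = l → QuotientGroup.mk' F g = 1 := by
    intro g hgP hg
    have h1 : φ g = 1 := hl _ ⟨g, hgP, rfl⟩ hg
    have h2 : (P.comap (QuotientGroup.mk' F)) ⊓ φ.ker ≤ F := by
      apply faithful F hFn hFmax p
      · intro f hf
        refine ⟨?_, hFker f hf⟩
        have : (QuotientGroup.mk' F) f = 1 := (QuotientGroup.eq_one_iff f).2 hf
        change (QuotientGroup.mk' F) f ∈ P
        rw [this]
        exact P.one_mem
      · rintro d ⟨hd, -⟩
        obtain ⟨k, hk⟩ := hPp ⟨_, hd⟩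
        refine ⟨k, ?_⟩
        have h1 := congrArg Subtype.val hk
        rw [Subgroup.coe_pow, Subgroup.coe_one, ← map_pow] at h1
        exact (QuotientGroup.eq_one_iff _).1 h1
      · rintro d ⟨-, hd⟩ l' hl' f
        have h3 : φ d ⟨l', hl'⟩ = ⟨l', hl'⟩ := by
          rw [MonoidHom.mem_ker.1 hd]
          rfl
        exact (actW_fix W hW d ⟨l', hl'⟩).1 h3 f
    exact (QuotientGroup.eq_one_iff g).2 (h2 ⟨hgP, h1⟩)
  obtain ⟨V, i1, i2, i3, ρ, hρ, hzero, -⟩ := exists_char_over F l.1
  refine ⟨V, i1, i2, i3, ρ, hρ, ?_⟩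
  intro g hgP hg1
  apply hzero
  intro t
  by_contra hcon
  push Not at hcon
  apply hg1
  have h1 : QuotientGroup.mk' F (t⁻¹ * g * t) ∈ P := by
    have := hP.conj_mem _ hgP (QuotientGroup.mk' F t⁻¹)
    rwa [← map_mul, ← map_inv, ← map_mul, inv_inv] at this
  have h2 := key _ h1 ((actW_fix W hW _ l).2 hcon)
  rw [map_mul, map_mul, map_inv] at h2
  have h3 : QuotientGroup.mk' F g = QuotientGroup.mk' F t *
      ((QuotientGroup.mk' F t)⁻¹ * QuotientGroup.mk' F g * QuotientGroup.mk' F t) *
      (QuotientGroup.mk' F t)⁻¹ := by group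
  rw [h3, h2, mul_one, mul_inv_cancel]

/-- A nontrivial solvable normal subgroup of a finite group contains a nontrivial abelian normal `p`-subgroup. -/
theorem exists_abelian {Q : Type} [Group Q] [Finite Q] (X : Subgroup Q) (hX : X.Normal)
    (hs : Group.IsSolvable X) (hne : X ≠ ⊥) :
    ∃ (p : ℕ) (_ : Fact p.Prime) (P : Subgroup Q), P.Normal ∧ IsPGroup p P ∧
      (∀ x ∈ P, ∀ y ∈ P, x * y = y * x) ∧ P ≤ X ∧ P ≠ ⊥ := by
  classical
  have hsol : ∃ n, derivedSeries X n = ⊥ := (Group.isSolvable_def X).1 hs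
  have h0 := Nat.find_spec hsol
  set n := Nat.find hsol with hn
  have hnt : Nontrivial X := X.nontrivial_iff_ne_bot.2 hne
  have hpos : 0 < n := by
    rcases Nat.eq_zero_or_pos n with hz | hpos
    · exfalso
      rw [hz, derivedSeries_zero] at h0
      exact top_ne_bot h0
    · exact hpos
  obtain ⟨k, hk⟩ : ∃ k, n = k + 1 := ⟨n - 1, by omega⟩
  rw [hk, derivedSeries_succ] at h0
  have h1 : derivedSeries X k ≠ ⊥ := Nat.find_min hsol (by omega)
  have h2 : ∀ x ∈ derivedSeries X k, ∀ y ∈ derivedSeries X k, x * y = y * x := by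
    intro x hx y hy
    have h3 : ⁅x, y⁆ ∈ ⁅derivedSeries X k, derivedSeries X k⁆ :=
      Subgroup.commutator_mem_commutator hx hy
    rw [h0, Subgroup.mem_bot] at h3
    exact commutatorElement_eq_one_iff_mul_comm.1 h3
  have hDc : (derivedSeries X k).Characteristic := inferInstance
  have hDn : ((derivedSeries X k).map X.subtype).Normal :=
    ConjAct.normal_of_characteristic_of_normal
  have hDab : ∀ x ∈ (derivedSeries X k).map X.subtype, ∀ y ∈ (derivedSeries X k).map X.subtype,
      x * y = y * x := by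
    rintro _ ⟨x, hx, rfl⟩ _ ⟨y, hy, rfl⟩
    rw [← map_mul, ← map_mul, h2 x hx y hy]
  have hDX : (derivedSeries X k).map X.subtype ≤ X := Subgroup.map_subtype_le _
  have hDne : (derivedSeries X k).map X.subtype ≠ ⊥ := by
    intro h
    apply h1
    rw [eq_bot_iff]
    intro x hx
    have h4 : X.subtype x ∈ (derivedSeries X k).map X.subtype := ⟨x, hx, rfl⟩
    rw [h, Subgroup.mem_bot] at h4
    rw [Subgroup.mem_bot]
    exact Subtype.ext h4
  obtain ⟨D, hD⟩ : ∃ D, D = (derivedSeries X k).map X.subtype := ⟨_, rfl⟩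
  rw [← hD] at hDn hDab hDX hDne
  have hDnt : Nontrivial D := D.nontrivial_iff_ne_bot.2 hDne
  have hcard : Nat.card D ≠ 1 := by
    intro h
    have := Nat.card_eq_one_iff_unique.1 h
    exact not_subsingleton D this.1
  obtain ⟨p, hp, hpd⟩ := Nat.exists_prime_and_dvd hcard
  have hpf : Fact p.Prime := ⟨hp⟩
  obtain ⟨x, hx⟩ := exists_prime_orderOf_dvd_card' p hpd
  let P : Subgroup Q :=
    { carrier := {y | y ∈ D ∧ y ^ p = 1}
      one_mem' := ⟨D.one_mem, one_pow p⟩
      mul_mem' := by
        rintro a b ⟨ha, ha'⟩ ⟨hb, hb'⟩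
        refine ⟨D.mul_mem ha hb, ?_⟩
        have hc : Commute a b := hDab a ha b hb
        rw [hc.mul_pow, ha', hb', one_mul]
      inv_mem' := by
        rintro a ⟨ha, ha'⟩
        refine ⟨D.inv_mem ha, ?_⟩
        rw [inv_pow, ha', inv_one] }
  have hPm : ∀ y, y ∈ P ↔ y ∈ D ∧ y ^ p = 1 := fun _ => Iff.rfl
  refine ⟨p, hpf, P, ⟨?_⟩, ?_, ?_, ?_, ?_⟩
  · rintro y ⟨hy, hy'⟩ g
    refine ⟨hDn.conj_mem y hy g, ?_⟩
    rw [conj_pow, hy', mul_one, mul_inv_cancel]
  · rintro ⟨y, hy, hy'⟩
    refine ⟨1, ?_⟩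
    apply Subtype.ext
    rw [pow_one]
    exact hy'
  · rintro a ⟨ha, -⟩ b ⟨hb, -⟩
    exact hDab a ha b hb
  · rintro a ⟨ha, -⟩
    exact hDX ha
  · intro h
    have h3 : (x : Q) ∈ P := by
      refine ⟨x.2, ?_⟩
      have h4 : x ^ p = 1 := by rw [← hx]; exact pow_orderOf_eq_one x
      have h5 := congrArg Subtype.val h4
      rwa [Subgroup.coe_pow, Subgroup.coe_one] at h5
    rw [h, Subgroup.mem_bot] at h3
    have h4 : x = 1 := Subtype.ext h3
    rw [h4, orderOf_one] at hx
    exact hp.one_lt.ne hx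

/-- A solvable normal subgroup satisfying `C1` is contained in the Fitting subgroup (in every finite group). -/
theorem C1_le_fitting {G : Type} [Group G] [Finite G] {X : Subgroup G} (hXn : X.Normal)
    (hXs : Group.IsSolvable X) (h : C1 G X) : X ≤ fitting G := by
  obtain ⟨hFn, hnil, hmax⟩ := fitting_spec G
  by_contra hcon
  have hne : X.map (QuotientGroup.mk' (fitting G)) ≠ ⊥ := by
    intro h1
    apply hcon
    intro x hx
    have h2 : QuotientGroup.mk' (fitting G) x ∈ X.map (QuotientGroup.mk' (fitting G)) := ⟨x, hx, rfl⟩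
    rw [h1, Subgroup.mem_bot] at h2
    exact (QuotientGroup.eq_one_iff x).1 h2
  have hn : (X.map (QuotientGroup.mk' (fitting G))).Normal :=
    hXn.map _ (QuotientGroup.mk'_surjective _)
  have hsol : Group.IsSolvable (X.map (QuotientGroup.mk' (fitting G))) := by
    have : Function.Surjective ((QuotientGroup.mk' (fitting G)).subgroupMap X) :=
      MonoidHom.subgroupMap_surjective _ _
    exact Group.isSolvable_of_surjective this
  obtain ⟨p, hp, P, hPn, hPp, hPab, hPX, hPne⟩ := exists_abelian _ hn hsol hne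
  obtain ⟨x, hxP, hx1⟩ := P.bot_or_exists_ne_one.resolve_left hPne
  obtain ⟨g, hgX, rfl⟩ := hPX hxP
  obtain ⟨V, i1, i2, i3, ρ, hρ, hzero⟩ := rep_char (fitting G) hnil hmax p P hPn hPp hPab
  exact h.nonvanishing hgX V ρ hρ (hzero g hxP hx1)

/-- `G` has a solvable normal subgroup of index at most `s`. -/
def SB (G : Type) [Group G] (s : ℕ) : Prop :=
  ∃ R : Subgroup G, R.Normal ∧ Group.IsSolvable R ∧ R.index ≤ s

theorem SB.quot {G H : Type} [Group G] [Group H] [Finite G] {s : ℕ} (h : SB G s) (f : G →* H)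
    (hf : Function.Surjective f) : SB H s := by
  obtain ⟨R, hRn, hRs, hR⟩ := h
  refine ⟨R.map f, hRn.map f hf, ?_, ?_⟩
  · exact Group.isSolvable_of_surjective (f.subgroupMap_surjective R)
  · refine le_trans (Nat.le_of_dvd ?_ (R.index_map_dvd hf)) hR
    exact Nat.pos_of_ne_zero Subgroup.index_ne_zero_of_finite

/-- If the Fitting subgroup is trivial then there is no nontrivial solvable normal subgroup. -/
theorem card_le_of_fitting_bot {Q : Type} [Group Q] [Finite Q] {s : ℕ} (h : SB Q s)
    (hF : fitting Q = ⊥) : Nat.card Q ≤ s := by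
  obtain ⟨R, hRn, hRs, hR⟩ := h
  have h1 : R = ⊥ := by
    by_contra hne
    obtain ⟨p, hp, P, hPn, hPp, hPab, hPX, hPne⟩ := exists_abelian R hRn hRs hne
    apply hPne
    rw [eq_bot_iff, ← hF]
    apply (fitting_spec Q).2.2 P hPn
    exact hPp.isNilpotent
  rw [h1, Subgroup.index_bot] at hR
  exact hR

/-- The index of the Fitting subgroup is bounded in terms of the number of zeros and of the index of a solvable
normal subgroup. -/
theorem index_bound (s m : ℕ) : ∃ b : ℕ, ∀ (G : Type) [Group G] [Finite G], SB G s →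
    ZB G m → (fitting G).index ≤ b := by
  have step : ∀ (m b : ℕ), (∀ (G : Type) [Group G] [Finite G], SB G s →
      (∀ (V : Type) [AddCommGroup V] [Module ℂ V] [FiniteDimensional ℂ V]
        (ρ : Representation ℂ G V), ρ.IsIrreducible → cl {g : G | ρ.character g = 0} < m) →
      (fitting G).index ≤ b) →
      ∃ b' : ℕ, ∀ (G : Type) [Group G] [Finite G], SB G s →
        ZB G m → (fitting G).index ≤ b' := by
    intro m b hb
    let b2 := orbB m b ^ orbB m b * b
    refine ⟨max s (orbB m b2 ^ orbB m b2 * b2), ?_⟩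
    intro G _ _ hSB hZ
    have i1 : (fitting G).Normal := (fitting_spec G).1
    let Q := G ⧸ fitting G
    have i2 : (fitting Q).Normal := (fitting_spec Q).1
    have hZQ : ZB Q m := hZ.quot (QuotientGroup.mk' _) (QuotientGroup.mk'_surjective _)
    have hSQ : SB Q s := hSB.quot (QuotientGroup.mk' _) (QuotientGroup.mk'_surjective _)
    let Q2 := Q ⧸ fitting Q
    let f : G →* Q2 := (QuotientGroup.mk' (fitting Q)).comp (QuotientGroup.mk' (fitting G))
    have hf : Function.Surjective f :=
      (QuotientGroup.mk'_surjective _).comp (QuotientGroup.mk'_surjective _)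
    by_cases hcase : ∃ (V : Type) (_ : AddCommGroup V) (_ : Module ℂ V)
      (_ : FiniteDimensional ℂ V) (ρ : Representation ℂ Q2 V), ρ.IsIrreducible ∧
        m ≤ cl {g : Q2 | ρ.character g = 0}
    · obtain ⟨V, _, _, _, ρ, hρ, hm⟩ := hcase
      have h1 : C1 G f.ker := C1_of_attained hZ f hf ρ hρ hm
      have hsol : Group.IsSolvable f.ker := by
        have hmem : ∀ x : f.ker, QuotientGroup.mk' (fitting G) (x : G) ∈ fitting Q := by
          intro x
          exact (QuotientGroup.eq_one_iff _).1 (MonoidHom.mem_ker.1 x.2)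
        have hle : fitting G ≤ f.ker := by
          intro x hx
          have h1 : QuotientGroup.mk' (fitting G) x = 1 := (QuotientGroup.eq_one_iff x).2 hx
          rw [MonoidHom.mem_ker]
          change QuotientGroup.mk' (fitting Q) (QuotientGroup.mk' (fitting G) x) = 1
          rw [h1, map_one]
        have n1 : Group.IsNilpotent (fitting G) := (fitting_spec G).2.1
        have n2 : Group.IsNilpotent (fitting Q) := (fitting_spec Q).2.1
        refine Group.isSolvable_of_ker_le_range (Subgroup.inclusion hle)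
          (((QuotientGroup.mk' (fitting G)).comp f.ker.subtype).codRestrict (fitting Q) hmem) ?_
        intro x hx
        have h1 : QuotientGroup.mk' (fitting G) (x : G) = 1 := congrArg Subtype.val (MonoidHom.mem_ker.1 hx)
        exact ⟨⟨x, (QuotientGroup.eq_one_iff _).1 h1⟩, rfl⟩
      have h2 : f.ker ≤ fitting G := C1_le_fitting inferInstance hsol h1
      have h3 : fitting Q = ⊥ := by
        rw [eq_bot_iff]
        intro x hx
        obtain ⟨g, rfl⟩ := QuotientGroup.mk'_surjective _ x
        have h4 : g ∈ f.ker := (QuotientGroup.eq_one_iff _).2 hx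
        exact (QuotientGroup.eq_one_iff _).2 (h2 h4)
      exact (card_le_of_fitting_bot hSQ h3).trans (le_max_left _ _)
    · refine le_trans ?_ (le_max_right _ _)
      push Not at hcase
      have hQ2 : (fitting Q2).index ≤ b := by
        apply hb
        · exact hSB.quot f hf
        · intro V _ _ _ ρ hρ
          exact hcase V inferInstance inferInstance inferInstance ρ hρ
      have hQ1 : (fitting Q).index ≤ b2 := index_step m b hZQ hQ2
      exact index_step m b2 hZ hQ1
  induction m with
  | zero =>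
    apply step 0 0
    intro G _ _ _ h
    exfalso
    obtain ⟨V, _, _, _, ρ, hρ, -⟩ := exists_char_over (G := G) ⊥ 1
    exact absurd (h V ρ hρ) (Nat.not_lt_zero _)
  | succ m ih =>
    obtain ⟨b, hb⟩ := ih
    apply step (m + 1) b
    intro G _ _ hSB h
    apply hb G hSB
    intro V _ _ _ ρ hρ
    exact Nat.lt_succ_iff.1 (h V ρ hρ)

end Pool.Agent.U247.ZF
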